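import Pool.Agent.R217.NF.Hol

set_option autoImplicit false

open Set
open scoped ContDiff
open Pool.Agent.R217.NF

namespace Pool.Agent.Results.MP_0af03f_an.WaterSmooth

/-- Full answer to Q1: for every `s ∈ (0,1)` and all `L, P₁, P₂ > 0` the self-similar profile of the
one-phase fractional Stefan problem is of class `C^∞` in the water region `(-∞, ξ₀)`; in particular
every derivative is Hölder continuous with every exponent `γ ∈ (0,1]` on every compact interval of the
water region, that is, the optimal regularity index `r*` is infinite. -/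
theorem result (s c L P1 P2 ξ0 : ℝ) (hs : 0 < s) (hs1 : s < 1) (hc : 0 < c) (_hL : 0 < L)
    (_hP1 : 0 < P1) (_hP2 : 0 < P2) (H : ℝ → ℝ) (h : Profile s c L P1 P2 ξ0 H) :
    ContDiffOn ℝ ∞ H (Iio ξ0) ∧
    ∀ (k : ℕ) (γ p q : ℝ), 0 < γ → γ ≤ 1 → p < q → q < ξ0 →
      ∃ C : ℝ, ∀ x ∈ Icc p q, ∀ y ∈ Icc p q,
        |iteratedDeriv k H x - iteratedDeriv k H y| ≤ C * |x - y| ^ γ :=
  have hm := main s c L P1 P2 ξ0 hs hs1 hc h
  ⟨hm, fun k _ _ _ hγ hγ1 hpq hq => holder_of_smooth hm k hγ hγ1 hpq hq⟩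

end Pool.Agent.Results.MP_0af03f_an.WaterSmooth
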